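import Pool.Agent.Y251.CL.Stm3

/-!
Project CL, job STRA (helper770): chart level to manifold level, `C^{1+α}` version (adaptation of
`strongC`).
-/

set_option autoImplicit false

open scoped Manifold ContDiff Topology
open Set

namespace Pool.Agent.Y770.CL

open Pool.Agent.H718R2.G Pool.Agent.Y251.CL Pool.Agent.Y640.CLA

section K4

set_option linter.unusedSectionVars false

variable {n : ℕ} [NeZero n] {M : Type*} [TopologicalSpace M] [T2Space M]
    [ChartedSpace (V n) M] [IsManifold (𝓡 n) ∞ M]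

/-- closed half-annuli -/
def Cm' (n : ℕ) [NeZero n] (m : ℕ) : Set (V n) :=
  {v | 1 / 2 ≤ v 0 ∧ (m : ℝ) ≤ ‖v‖ ∧ ‖v‖ ≤ m + 2}

/-- open enlarged half-annuli -/
def Om' (n : ℕ) [NeZero n] (m : ℕ) : Set (V n) :=
  {v | 1 / 4 < v 0 ∧ (m : ℝ) - 1 < ‖v‖ ∧ ‖v‖ < m + 3}

lemma Cm_sub_Om' (m : ℕ) : Cm' n m ⊆ Om' n m := by
  intro v hv
  obtain ⟨h1, h2, h3⟩ := hv
  exact ⟨by linarith, by linarith, by linarith⟩

lemma Om_open' (m : ℕ) : IsOpen (Om' n m) := by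
  have h1 : IsOpen {v : V n | 1 / 4 < v 0} := isOpen_lt continuous_const coord_cont
  have h2 : IsOpen {v : V n | (m : ℝ) - 1 < ‖v‖} := isOpen_lt continuous_const continuous_norm
  have h3 : IsOpen {v : V n | ‖v‖ < (m : ℝ) + 3} := isOpen_lt continuous_norm continuous_const
  exact h1.inter (h2.inter h3)

lemma Cm_compact' (m : ℕ) : IsCompact (Cm' n m) := by
  have h1 : IsClosed {v : V n | 1 / 2 ≤ v 0} := isClosed_le continuous_const coord_cont
  have h2 : IsClosed {v : V n | (m : ℝ) ≤ ‖v‖} := isClosed_le continuous_const continuous_norm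
  have h3 : IsClosed {v : V n | ‖v‖ ≤ (m : ℝ) + 2} := isClosed_le continuous_norm continuous_const
  refine Metric.isCompact_of_isClosed_isBounded (h1.inter (h2.inter h3)) ?_
  refine (Metric.isBounded_closedBall (x := (0 : V n)) (r := (m : ℝ) + 2)).subset ?_
  intro v hv
  rw [mem_closedBall_zero_iff]
  exact hv.2.2

lemma Om_sub' (m : ℕ) : Om' n m ⊆ {v : V n | 0 ≤ v 0} := by
  intro v hv
  have := hv.1
  show 0 ≤ v 0
  linarith

lemma dom_open' (φ : OpenPartialHomeomorph M (V n)) (m : ℕ) :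
    IsOpen (φ.source ∩ φ ⁻¹' (Om' n m)) :=
  φ.continuousOn.isOpen_inter_preimage φ.open_source (Om_open' m)

lemma dom_source' (φ : OpenPartialHomeomorph M (V n)) (m : ℕ) :
    (φ.restr (φ.source ∩ φ ⁻¹' (Om' n m))).source = φ.source ∩ φ ⁻¹' (Om' n m) := by
  rw [φ.restr_source' _ (dom_open' φ m), ← inter_assoc, inter_self]

lemma sd_lf' (φ : OpenPartialHomeomorph M (V n))
    (hcl : IsClosed (φ.symm '' {v : V n | 0 ≤ v 0})) (hA : {v : V n | 0 ≤ v 0} ⊆ φ.target) :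
    LocallyFinite fun m : ℕ => (φ.restr (φ.source ∩ φ ⁻¹' (Om' n m))).source := by
  intro y
  by_cases hy : y ∈ φ.symm '' {v : V n | 0 ≤ v 0}
  · have hys : y ∈ φ.source := by
      obtain ⟨v, hv, rfl⟩ := hy
      exact φ.map_target (hA hv)
    refine ⟨φ.source ∩ φ ⁻¹' (Metric.ball 0 (‖φ y‖ + 1)),
      (φ.continuousOn.isOpen_inter_preimage φ.open_source Metric.isOpen_ball).mem_nhds
        ⟨hys, by simp⟩, ?_⟩
    refine (Set.finite_lt_nat ⌈‖φ y‖ + 2⌉₊).subset ?_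
    rintro m ⟨z, hz1, hz2⟩
    simp only [dom_source'] at hz1
    have h1 : (m : ℝ) - 1 < ‖φ z‖ := hz1.2.2.1
    have h2 : ‖φ z‖ < ‖φ y‖ + 1 := by
      have := hz2.2
      rwa [mem_preimage, mem_ball_zero_iff] at this
    show m < _
    rw [Nat.lt_ceil]
    linarith
  · refine ⟨(φ.symm '' {v : V n | 0 ≤ v 0})ᶜ, hcl.isOpen_compl.mem_nhds hy, ?_⟩
    convert Set.finite_empty (α := ℕ)
    rw [Set.eq_empty_iff_forall_notMem]
    rintro m ⟨z, hz1, hz2⟩
    simp only [dom_source'] at hz1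
    exact hz2 ⟨φ z, Om_sub' m hz1.2, φ.left_inv hz1.1⟩

/-- the neighbourhood data -/
noncomputable def sd' (φ : OpenPartialHomeomorph M (V n))
    (hφ : φ ∈ IsManifold.maximalAtlas (𝓡 n) ∞ M)
    (hA : {v : V n | 0 ≤ v 0} ⊆ φ.target) (hcl : IsClosed (φ.symm '' {v : V n | 0 ≤ v 0}))
    (e : ℕ → ℝ) (he : ∀ m, 0 < e m) : StrongData n M where
  ι := ℕ
  φ m := φ.restr (φ.source ∩ φ ⁻¹' (Om' n m))
  ψ _ := φ
  K m := φ.symm '' (Cm' n m)
  ε := e
  φ_mem m := restr_mem_maximalAtlas (contDiffGroupoid ∞ (𝓡 n)) hφ (dom_open' φ m)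
  ψ_mem _ := hφ
  lf := sd_lf' φ hcl hA
  compact m := (Cm_compact' m).image_of_continuousOn
    (φ.continuousOn_symm.mono (((Cm_sub_Om' m).trans (Om_sub' m)).trans hA))
  sub m := by
    rw [dom_source']
    rintro _ ⟨v, hv, rfl⟩
    have hvt : v ∈ φ.target := hA (Om_sub' m (Cm_sub_Om' m hv))
    refine ⟨φ.map_target hvt, ?_⟩
    rw [mem_preimage, φ.right_inv hvt]
    exact Cm_sub_Om' m hv
  pos := he

lemma exists_eps' (ε : V n → ℝ) (hε : Continuous ε) (hpos : ∀ v, 0 < ε v) (m : ℕ) :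
    ∃ e : ℝ, 0 < e ∧ e ≤ 1 / 2 ∧ ∀ v : V n, ‖v‖ ≤ m + 3 → e ≤ ε v := by
  obtain ⟨v₀, -, hv₀⟩ := (isCompact_closedBall (0 : V n) ((m : ℝ) + 3)).exists_isMinOn
    ⟨0, by simp; positivity⟩ hε.continuousOn
  refine ⟨min (ε v₀) (1 / 2), lt_min (hpos v₀) (by norm_num), min_le_right _ _, ?_⟩
  intro v hv
  exact (min_le_left _ _).trans (hv₀ (by rw [mem_closedBall_zero_iff]; exact hv))

/-- norm of the second derivative -/
lemma norm_fderiv2 {E F : Type*} [NormedAddCommGroup E] [NormedSpace ℝ E] [NormedAddCommGroup F]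
    [NormedSpace ℝ F] (f : E → F) (x : E) :
    ‖fderiv ℝ (fderiv ℝ f) x‖ = ‖iteratedFDeriv ℝ 2 f x‖ := by
  rw [← norm_iteratedFDeriv_one (𝕜 := ℝ) (f := fderiv ℝ f), norm_iteratedFDeriv_fderiv]

theorem strongA {g₀ : DiffM n M ⊤}
    {φ : OpenPartialHomeomorph M (V n)} (hφ : φ ∈ IsManifold.maximalAtlas (𝓡 n) ∞ M)
    (hA : {v : V n | 0 ≤ v 0} ⊆ φ.target) (hcl : IsClosed (φ.symm '' {v : V n | 0 ≤ v 0}))
    (hg₀ : ∀ y ∈ φ.symm '' {v : V n | 0 ≤ v 0}, g₀ y = y) {α : ℝ} (hα0 : 0 < α) (hα1 : α ≤ 1)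
    (hN : NonClosingA α n) :
    ∃ (f : DiffM n M ⊤) (x : M) (D : StrongData n M),
      (∀ y ∉ φ.symm '' {v : V n | 0 ≤ v 0}, f y = g₀ y) ∧ IsRec f.toHomeomorph x ∧
      (∀ W ∈ 𝓝 x, ∃ k : ℕ, 1 ≤ k ∧ f^[k] x ∈ W) ∧
      x ∈ interior (φ.symm '' {v : V n | 47 / 8 ≤ v 0}) ∧
      (∀ i, D.K i ⊆ φ.symm '' {v : V n | 0 ≤ v 0}) ∧
      NearA α D f f ∧ Near2 D f f ∧
      (∀ G : M → M, ContMDiffOn (𝓡 n) (𝓡 n) 1 G (interior (φ.symm '' {v : V n | 0 ≤ v 0})) →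
        NearA α D f G → ∀ C : Set M, IsCompact C → MapsTo G C C →
          Disjoint C (φ.symm '' {v : V n | 47 / 8 ≤ v 0})) ∧
      ∀ G : M → M, ContMDiffOn (𝓡 n) (𝓡 n) 2 G (interior (φ.symm '' {v : V n | 0 ≤ v 0})) →
        Near2 D f G → ∀ C : Set M, IsCompact C → MapsTo G C C →
          Disjoint C (φ.symm '' {v : V n | 47 / 8 ≤ v 0}) := by
  obtain ⟨F, a, ε, ha, hF, hF', hid, hrec, hεc, hεp, hG⟩ := hN
  have hid' : ∀ v ∉ {v : V n | 0 ≤ v 0}, F v = v := by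
    intro v hv
    apply hid
    have : ¬ (0 ≤ v 0) := hv
    linarith [not_le.1 this]
  obtain ⟨f₁, hf1, hf2⟩ := transplant hφ hA hcl F hF hF' hid'
  have haA : a ∈ {v : V n | 0 ≤ v 0} := by show 0 ≤ a 0; linarith
  have hat : a ∈ φ.target := hA haA
  have hxs : φ.symm a ∈ φ.source := φ.map_target hat
  set f : DiffM n M ⊤ := f₁.trans g₀ with hf
  have hfe : ∀ y, f y = g₀ (f₁ y) := fun y => rfl
  have hft : ∀ v : V n, 0 ≤ v 0 → f (φ.symm v) = φ.symm (F v) := by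
    intro v hv
    rw [hfe, hf1 _ (φ.map_target (hA hv)), φ.right_inv (hA hv)]
    apply hg₀
    exact ⟨F v, F_half F hid hv, rfl⟩
  have hiter : ∀ k : ℕ, 0 ≤ (F^[k] a) 0 ∧ (f : M → M)^[k] (φ.symm a) = φ.symm (F^[k] a) := by
    intro k
    induction k with
    | zero => exact ⟨haA, rfl⟩
    | succ k ih =>
      rw [Function.iterate_succ_apply', Function.iterate_succ_apply', ih.2, hft _ ih.1]
      exact ⟨F_half F hid ih.1, rfl⟩
  have hrec2 : ∀ W ∈ 𝓝 (φ.symm a), ∃ k : ℕ, 1 ≤ k ∧ (f : M → M)^[k] (φ.symm a) ∈ W := by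
    intro W hW
    have hc : ContinuousAt φ.symm a := φ.continuousAt_symm hat
    have h1 : ∀ᶠ v in 𝓝 a, φ.symm v ∈ W := hc.eventually hW
    obtain ⟨δ, hδ, h2⟩ := Metric.eventually_nhds_iff.1 h1
    obtain ⟨k, hk1, hk2⟩ := hrec δ hδ
    refine ⟨k, hk1, ?_⟩
    rw [(hiter k).2]
    exact h2 (by rw [dist_eq_norm]; exact hk2)
  choose e he1 he3 he2' using exists_eps' ε hεc hεp
  have he2 : ∀ m, ∀ v ∈ Cm' n m, e m ≤ ε v := fun m v hv => he2' m v (by linarith [hv.2.2])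
  have hCA : ∀ m, Cm' n m ⊆ {v : V n | 0 ≤ v 0} := fun m => (Cm_sub_Om' m).trans (Om_sub' m)
  have hsrc : ∀ m, ∀ x ∈ φ.symm '' (Cm' n m), f x ∈ φ.source := by
    rintro m _ ⟨v, hv, rfl⟩
    rw [hft v (hCA m hv)]
    exact φ.map_target (hA (F_half F hid (hCA m hv)))
  have hnear : Near2 (sd' φ hφ hA hcl e he1) f f := by
    rintro m x hx
    refine ⟨hsrc m x hx, ?_⟩
    intro i _
    rw [sub_self, norm_zero]
    exact he1 m
  have hnearA : NearA α (sd' φ hφ hA hcl e he1) f f := by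
    intro m
    refine ⟨fun x hx => ⟨hsrc m x hx, ?_, ?_⟩, fun x _ y _ => ?_⟩
    · rw [sub_self, norm_zero]
      exact he1 m
    · rw [sub_self, norm_zero]
      exact he1 m
    · rw [sub_self, sub_self, sub_self, norm_zero]
      exact mul_nonneg (he1 m).le (Real.rpow_nonneg (norm_nonneg _) _)
  have hFge : ∀ v : V n, 1 ≤ v 0 → 1 ≤ F v 0 := by
    intro v hv
    by_contra h
    have h1 := hid (F v) (by linarith)
    rw [F.injective h1] at h
    exact h hv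
  have hint : ∀ v : V n, 0 < v 0 → φ.symm v ∈ interior (φ.symm '' {v : V n | 0 ≤ v 0}) :=
    fun v hv => mem_int hA le_rfl hv
  -- every point of the half space is in a piece
  have hpiece : ∀ v : V n, 1 / 2 ≤ v 0 → v ∈ Cm' n ⌊‖v‖⌋₊ := by
    intro v hv
    exact ⟨hv, Nat.floor_le (norm_nonneg v), by linarith [(Nat.lt_floor_add_one ‖v‖).le]⟩
  have h2i : (2 : WithTop ℕ∞) ≤ ∞ := WithTop.coe_le_coe.mpr le_top
  have h1i : (1 : WithTop ℕ∞) ≤ ∞ := WithTop.coe_le_coe.mpr le_top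
  have hev : ∀ v : V n, 1 / 2 ≤ v 0 →
      (φ ∘ f ∘ φ.symm) =ᶠ[𝓝 v] (F : V n → V n) := by
    intro v hv
    have ho : IsOpen {v : V n | 0 < v 0} := isOpen_lt continuous_const coord_cont
    filter_upwards [ho.mem_nhds (show 0 < v 0 by linarith)] with w hw
    have hw' : 0 ≤ w 0 := le_of_lt hw
    simp only [Function.comp_apply]
    rw [hft w hw', φ.right_inv (hA (F_half F hid hw'))]
  -- smoothness in the chart
  have hsm : ∀ (k : WithTop ℕ∞), k ≤ ∞ → ∀ g : M → M,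
      ContMDiffOn (𝓡 n) (𝓡 n) k g (interior (φ.symm '' {v : V n | 0 ≤ v 0})) →
      (∀ v : V n, 1 / 2 ≤ v 0 → g (φ.symm v) ∈ φ.source) →
      ∀ v : V n, 1 / 2 < v 0 → ContDiffAt ℝ k (φ ∘ g ∘ φ.symm) v := by
    intro k hk g hgs2 hgs v hv'
    have hvt : v ∈ φ.target := hA (show 0 ≤ v 0 by linarith)
    have h1 : ContMDiffAt (𝓡 n) (𝓡 n) k φ.symm v :=
      ((contMDiffOn_symm_of_mem_maximalAtlas hφ v hvt).contMDiffAt
        (φ.open_target.mem_nhds hvt)).of_le hk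
    have h2 : ContMDiffAt (𝓡 n) (𝓡 n) k g (φ.symm v) :=
      (hgs2 _ (hint v (by linarith))).contMDiffAt
        (isOpen_interior.mem_nhds (hint v (by linarith)))
    have h3 : ContMDiffAt (𝓡 n) (𝓡 n) k φ (g (φ.symm v)) :=
      ((contMDiffOn_of_mem_maximalAtlas hφ _ (hgs v hv'.le)).contMDiffAt
        (φ.open_source.mem_nhds (hgs v hv'.le))).of_le hk
    have h4 : ContMDiffAt (𝓡 n) (𝓡 n) k (φ ∘ g ∘ φ.symm) v :=
      ContMDiffAt.comp v (g := φ) (f := g ∘ φ.symm) h3 (ContMDiffAt.comp v h2 h1)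
    exact contMDiffAt_iff_contDiffAt.1 h4
  -- the conclusion from closeness in the chart
  have final : ∀ g : M → M, (∀ v : V n, 1 / 2 ≤ v 0 → g (φ.symm v) ∈ φ.source) →
      CloseA α ε F (φ ∘ g ∘ φ.symm) →
      (∀ v : V n, 1 / 2 < v 0 → ‖(φ ∘ g ∘ φ.symm) v - F v‖ < 1 / 2) →
      ∀ C : Set M, IsCompact C → MapsTo g C C →
        Disjoint C (φ.symm '' {v : V n | 47 / 8 ≤ v 0}) := by
    intro g hgs hcA hhalf C hC hCC
    rw [Set.disjoint_left]
    rintro _ hyC ⟨b, hb0, rfl⟩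
    have hb1 : 47 / 8 ≤ b 0 := hb0
    have hbt : b ∈ φ.target := hA (show 0 ≤ b 0 by linarith)
    refine hG (φ ∘ g ∘ φ.symm) hcA (φ '' (C ∩ φ.symm '' {v : V n | 0 ≤ v 0})) ?_ ?_ ?_
    · refine (hC.inter_right hcl).image_of_continuousOn (φ.continuousOn.mono ?_)
      rintro _ ⟨-, ⟨v, hv, rfl⟩⟩
      exact φ.map_target (hA hv)
    · exact ⟨b, ⟨φ.symm b, ⟨hyC, ⟨b, (show (0 : ℝ) ≤ b 0 by linarith), rfl⟩⟩, φ.right_inv hbt⟩,
        by linarith⟩
    · rintro _ ⟨_, ⟨hzC, ⟨v, hv, rfl⟩⟩, rfl⟩ hv1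
      have hvt : v ∈ φ.target := hA hv
      rw [φ.right_inv hvt] at hv1 ⊢
      have hgz := hgs v (by linarith)
      have h1 : ‖(φ ∘ g ∘ φ.symm) v - F v‖ < 1 / 2 := hhalf v (by linarith)
      have h2 : |((φ ∘ g ∘ φ.symm) v - F v) 0| ≤ ‖(φ ∘ g ∘ φ.symm) v - F v‖ :=
        PiLp.norm_apply_le ((φ ∘ g ∘ φ.symm) v - F v) 0
      have h3 := hFge v hv1
      have h4 : ((φ ∘ g ∘ φ.symm) v - F v) 0 = (φ ∘ g ∘ φ.symm) v 0 - F v 0 := rfl
      rw [h4] at h2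
      have h5 : 0 ≤ (φ ∘ g ∘ φ.symm) v 0 := by
        have := (abs_lt.1 (h2.trans_lt h1)).1
        linarith
      refine ⟨g (φ.symm v), ⟨hCC hzC, ⟨φ (g (φ.symm v)), h5, φ.left_inv hgz⟩⟩, rfl⟩
  refine ⟨f, φ.symm a, sd' φ hφ hA hcl e he1, ?_, ?_, hrec2,
    mem_int hA (by norm_num) (by linarith), ?_, hnearA, hnear, ?_, ?_⟩
  · intro y hy
    rw [hfe, hf2 y hy]
  · -- recurrence
    intro hemb
    obtain ⟨W, hW, hW'⟩ := hemb.isInducing.isOpen_iff.mp (isOpen_discrete ({0} : Set ℤ))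
    have h0 : φ.symm a ∈ W := by
      have : (0 : ℤ) ∈ (fun m : ℤ => (f.toHomeomorph ^ m) (φ.symm a)) ⁻¹' W := by rw [hW']; rfl
      simpa using this
    obtain ⟨k, hk1, hk2⟩ := hrec2 W (hW.mem_nhds h0)
    have h4 : (k : ℤ) ∈ (fun m : ℤ => (f.toHomeomorph ^ m) (φ.symm a)) ⁻¹' W := by
      show (f.toHomeomorph ^ (k : ℤ)) (φ.symm a) ∈ W
      rw [zpow_natCast, homeo_pow_apply]
      have h5 : ((f.toHomeomorph : M ≃ₜ M) : M → M) = f := rfl
      rw [h5]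
      exact hk2
    rw [hW'] at h4
    have : (k : ℤ) = 0 := h4
    omega
  · rintro i _ ⟨v, hv, rfl⟩
    exact ⟨v, hCA _ hv, rfl⟩
  · -- the `C^{1+α}` clause
    intro g hgs1 hg
    have hgs : ∀ v : V n, 1 / 2 ≤ v 0 → g (φ.symm v) ∈ φ.source := by
      intro v hv
      exact ((hg ⌊‖v‖⌋₊).1 (φ.symm v) ⟨v, hpiece v hv, rfl⟩).1
    have c0' : ∀ v : V n, 1 / 2 < v 0 → ‖(φ ∘ g ∘ φ.symm) v - F v‖ < e ⌊‖v‖⌋₊ := by
      intro v hv
      have hvt : v ∈ φ.target := hA (show 0 ≤ v 0 by linarith)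
      have h4 : ‖(φ ∘ g ∘ φ.symm) (φ (φ.symm v)) - (φ ∘ f ∘ φ.symm) (φ (φ.symm v))‖ <
          e ⌊‖v‖⌋₊ := ((hg ⌊‖v‖⌋₊).1 (φ.symm v) ⟨v, hpiece v hv.le, rfl⟩).2.1
      rw [φ.right_inv hvt, (hev v hv.le).eq_of_nhds] at h4
      exact h4
    refine final g hgs ⟨?_, ?_, ?_, ?_⟩ ?_
    · intro v hv
      exact (hsm 1 h1i g hgs1 hgs v hv).differentiableAt (by norm_num)
    · intro v hv
      exact (c0' v hv).trans_le (he2 _ v (hpiece v hv.le))
    · intro v hv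
      have hvt : v ∈ φ.target := hA (show 0 ≤ v 0 by linarith)
      have h4 : ‖fderiv ℝ (φ ∘ g ∘ φ.symm) (φ (φ.symm v)) -
          fderiv ℝ (φ ∘ f ∘ φ.symm) (φ (φ.symm v))‖ < e ⌊‖v‖⌋₊ :=
        ((hg ⌊‖v‖⌋₊).1 (φ.symm v) ⟨v, hpiece v hv.le, rfl⟩).2.2
      rw [φ.right_inv hvt, (hev v hv.le).fderiv_eq] at h4
      exact h4.trans_le (he2 _ v (hpiece v hv.le))
    · intro v w hv hw hvw
      have hvt : v ∈ φ.target := hA (show 0 ≤ v 0 by linarith)
      have hwt : w ∈ φ.target := hA (show 0 ≤ w 0 by linarith)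
      set m := ⌊min ‖v‖ ‖w‖⌋₊ with hm
      have hm0 : 0 ≤ min ‖v‖ ‖w‖ := le_min (norm_nonneg _) (norm_nonneg _)
      have hm1 : (m : ℝ) ≤ min ‖v‖ ‖w‖ := Nat.floor_le hm0
      have hm2 : min ‖v‖ ‖w‖ ≤ m + 1 := (Nat.lt_floor_add_one _).le
      have hvw1 : ‖v‖ ≤ ‖w‖ + 1 := by
        have := norm_le_norm_add_norm_sub' v w
        linarith
      have hvw2 : ‖w‖ ≤ ‖v‖ + 1 := by
        have := norm_le_norm_add_norm_sub' w v
        rw [norm_sub_rev] at this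
        linarith
      have hvm : ‖v‖ ≤ min ‖v‖ ‖w‖ + 1 := by
        rcases le_total ‖v‖ ‖w‖ with h | h
        · rw [min_eq_left h]; linarith
        · rw [min_eq_right h]; linarith
      have hwm : ‖w‖ ≤ min ‖v‖ ‖w‖ + 1 := by
        rcases le_total ‖v‖ ‖w‖ with h | h
        · rw [min_eq_left h]; linarith
        · rw [min_eq_right h]; linarith
      have hv' : v ∈ Cm' n m := ⟨hv.le, hm1.trans (min_le_left _ _), by linarith⟩
      have hw' : w ∈ Cm' n m := ⟨hw.le, hm1.trans (min_le_right _ _), by linarith⟩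
      have h4 : ‖(fderiv ℝ (φ ∘ g ∘ φ.symm) (φ (φ.symm v)) -
            fderiv ℝ (φ ∘ f ∘ φ.symm) (φ (φ.symm v))) -
          (fderiv ℝ (φ ∘ g ∘ φ.symm) (φ (φ.symm w)) -
            fderiv ℝ (φ ∘ f ∘ φ.symm) (φ (φ.symm w)))‖ ≤
          e m * ‖φ (φ.symm v) - φ (φ.symm w)‖ ^ α :=
        (hg m).2 (φ.symm v) ⟨v, hv', rfl⟩ (φ.symm w) ⟨w, hw', rfl⟩
      rw [φ.right_inv hvt, φ.right_inv hwt, (hev v hv.le).fderiv_eq, (hev w hw.le).fderiv_eq] at h4
      exact h4.trans (mul_le_mul_of_nonneg_right (he2 m v hv')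
        (Real.rpow_nonneg (norm_nonneg _) _))
    · intro v hv
      exact (c0' v hv).trans_le (he3 _)
  · -- the `C²` clause
    intro g hgs2 hg
    have hgs : ∀ v : V n, 1 / 2 ≤ v 0 → g (φ.symm v) ∈ φ.source := by
      intro v hv
      exact (hg ⌊‖v‖⌋₊ (φ.symm v) ⟨v, hpiece v hv, rfl⟩).1
    have hH2 := hsm 2 h2i g hgs2 hgs
    have hF2 : ∀ v : V n, ContDiffAt ℝ 2 (F : V n → V n) v := fun v =>
      (hF.of_le h2i).contDiffAt
    set Δ : V n → V n := (φ ∘ g ∘ φ.symm) - (F : V n → V n) with hΔ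
    have hΔ2 : ∀ v : V n, 1 / 2 < v 0 → ContDiffAt ℝ 2 Δ v := fun v hv =>
      (hH2 v hv).sub (hF2 v)
    have hclose : ∀ v : V n, 1 / 2 < v 0 → ∀ i : ℕ, i ≤ 2 →
        ‖iteratedFDeriv ℝ i Δ v‖ < e ⌊‖v‖⌋₊ := by
      intro v hv i hi
      have hvt : v ∈ φ.target := hA (show 0 ≤ v 0 by linarith)
      have h1 := (hg ⌊‖v‖⌋₊ (φ.symm v) ⟨v, hpiece v hv.le, rfl⟩).2 i hi
      have h3 : iteratedFDeriv ℝ i (φ ∘ f ∘ φ.symm) v = iteratedFDeriv ℝ i (F : V n → V n) v :=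
        ((hev v hv.le).iteratedFDeriv ℝ i).eq_of_nhds
      have h4 : ‖iteratedFDeriv ℝ i (φ ∘ g ∘ φ.symm) (φ (φ.symm v))
          - iteratedFDeriv ℝ i (φ ∘ f ∘ φ.symm) (φ (φ.symm v))‖ < e ⌊‖v‖⌋₊ := h1
      rw [φ.right_inv hvt, h3] at h4
      have h5 : iteratedFDeriv ℝ i Δ v = iteratedFDeriv ℝ i (φ ∘ g ∘ φ.symm) v -
          iteratedFDeriv ℝ i (F : V n → V n) v := by
        have hi' : ((i : ℕ) : WithTop ℕ∞) ≤ 2 := by exact_mod_cast hi
        exact iteratedFDeriv_sub_apply ((hH2 v hv).of_le hi') ((hF2 v).of_le hi')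
      rw [h5]
      exact h4
    have hfd : ∀ v : V n, 1 / 2 < v 0 → fderiv ℝ Δ v =
        fderiv ℝ (φ ∘ g ∘ φ.symm) v - fderiv ℝ (F : V n → V n) v := fun v hv =>
      fderiv_sub ((hH2 v hv).differentiableAt (by norm_num))
        ((hF2 v).differentiableAt (by norm_num))
    have c0' : ∀ v : V n, 1 / 2 < v 0 → ‖(φ ∘ g ∘ φ.symm) v - F v‖ < e ⌊‖v‖⌋₊ := by
      intro v hv
      have h0 := hclose v hv 0 (by norm_num)
      rw [norm_iteratedFDeriv_zero] at h0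
      exact h0
    refine final g hgs ⟨?_, ?_, ?_, ?_⟩ ?_
    · intro v hv
      exact (hH2 v hv).differentiableAt (by norm_num)
    · intro v hv
      exact (c0' v hv).trans_le (he2 _ v (hpiece v hv.le))
    · intro v hv
      have h1 := hclose v hv 1 (by norm_num)
      rw [norm_iteratedFDeriv_one, hfd v hv] at h1
      exact h1.trans_le (he2 _ v (hpiece v hv.le))
    · intro v w hv hw hvw
      rw [← hfd v hv, ← hfd w hw]
      have hseg : ∀ u ∈ segment ℝ v w, 1 / 2 < u 0 ∧ ‖u - v‖ ≤ 1 := by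
        intro u hu
        obtain ⟨a', b', ha', hb', hab, rfl⟩ := hu
        constructor
        · show 1 / 2 < (a' • v + b' • w) 0
          have : (a' • v + b' • w) 0 = a' * v 0 + b' * w 0 := rfl
          rw [this]
          rcases eq_or_lt_of_le ha' with h | h
          · have : b' = 1 := by linarith
            rw [← h, this]; linarith
          · nlinarith
        · have h1 : a' • v + b' • w - v = b' • (w - v) := by
            have : a' = 1 - b' := by linarith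
            rw [this]
            module
          rw [h1, norm_smul, Real.norm_eq_abs, abs_of_nonneg hb', norm_sub_rev]
          nlinarith [norm_nonneg (v - w)]
      have hmv := Convex.norm_image_sub_le_of_norm_fderiv_le (𝕜 := ℝ) (f := fderiv ℝ Δ)
        (C := ε v) (s := segment ℝ v w) (x := w) (y := v) ?_ ?_ (convex_segment v w)
        (right_mem_segment ℝ v w) (left_mem_segment ℝ v w)
      · refine hmv.trans (mul_le_mul_of_nonneg_left ?_ (hεp v).le)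
        rcases eq_or_lt_of_le (norm_nonneg (v - w)) with h | h
        · rw [← h]
          exact Real.rpow_nonneg le_rfl _
        · calc ‖v - w‖ = ‖v - w‖ ^ (1 : ℝ) := (Real.rpow_one _).symm
            _ ≤ ‖v - w‖ ^ α := Real.rpow_le_rpow_of_exponent_ge h hvw hα1
      · intro u hu
        have h1 : ContDiffAt ℝ 1 (fderiv ℝ Δ) u :=
          (hΔ2 u (hseg u hu).1).fderiv_right (m := 1) (by norm_num)
        exact h1.differentiableAt (by norm_num)
      · intro u hu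
        rw [norm_fderiv2]
        obtain ⟨hu1, hu2⟩ := hseg u hu
        refine (hclose u hu1 2 le_rfl).le.trans (he2' _ v ?_)
        have h1 : ‖v‖ ≤ ‖u‖ + 1 := by
          have := norm_le_norm_add_norm_sub' v u
          rw [norm_sub_rev] at this
          linarith
        have h2 := (Nat.lt_floor_add_one ‖u‖).le
        linarith
    · intro v hv
      exact (c0' v hv).trans_le (he3 _)

end K4

theorem stra.{u} : Pool.Agent.Y251.CL.S_STRA.{u} := by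
  intro n _ M _ _ _ _ g₀ φ α hφ hA hcl hg₀ h0 h1 hN
  exact strongA hφ hA hcl hg₀ h0 h1 hN

end Pool.Agent.Y770.CL
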